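import Pool.Agent.H289R3.FS.Stmts

set_option autoImplicit false

open Set Topology Complex

namespace Pool.Agent.H164R3.FS.Eta

open Pool.Agent.H289R3.FS

/-- the periodic part -/
noncomputable def ff (s x : ℝ) : ℂ × ℂ :=
  (cexp (-(2 * Real.pi * I * s * x)) * ((1 - x) + x * cexp (2 * Real.pi * I * s)),
    cexp (-(2 * Real.pi * I * s * x)) * (x * (1 - x)))

/-- the quasi-periodic lift -/
noncomputable def eta (s t : ℝ) : ℂ × ℂ :=
  cexp (2 * Real.pi * I * s * t) • ff s (Int.fract t)

lemma continuous_ff : Continuous (fun p : ℝ × ℝ => ff p.1 p.2) := by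
  unfold ff
  fun_prop

lemma ff_zero_one (s : ℝ) : ff s 0 = ff s 1 := by
  unfold ff
  ext
  · simp [← Complex.exp_add]
  · simp

lemma continuous_eta : Continuous (fun p : ℝ × ℝ => eta p.1 p.2) := by
  unfold eta
  have h1 : Continuous (fun p : ℝ × ℝ => ff p.1 (Int.fract p.2)) :=
    ContinuousOn.comp_fract' (f := ff) continuous_ff.continuousOn ff_zero_one
  have h2 : Continuous (fun p : ℝ × ℝ => cexp (2 * Real.pi * I * p.1 * p.2)) := by fun_prop
  exact h2.smul h1

lemma eta_ne_zero (s t : ℝ) : eta s t ≠ 0 := by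
  unfold eta
  intro h
  rw [smul_eq_zero] at h
  rcases h with h | h
  · exact exp_ne_zero _ h
  · by_cases h0 : Int.fract t = 0
    · rw [h0] at h
      have := congrArg Prod.fst h
      simp [ff] at this
    · have h1 : Int.fract t < 1 := Int.fract_lt_one t
      have := congrArg Prod.snd h
      simp only [ff, Prod.snd_zero, mul_eq_zero, exp_ne_zero, false_or] at this
      rcases this with h2 | h2
      · exact h0 (by exact_mod_cast h2)
      · have h3 : (1 : ℝ) - Int.fract t = 0 := by exact_mod_cast h2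
        linarith

lemma eta_add_one_right (s t : ℝ) :
    eta s (t + 1) = cexp (2 * Real.pi * I * s) • eta s t := by
  unfold eta
  rw [Int.fract_add_one, smul_smul, ← Complex.exp_add]
  congr 2
  push_cast
  ring

lemma eta_add_one_left (s t : ℝ) : eta (s + 1) t = eta s t := by
  have hs : cexp (2 * Real.pi * I * ((s + 1 : ℝ) : ℂ)) = cexp (2 * Real.pi * I * s) := by
    push_cast
    rw [mul_add, Complex.exp_add, mul_one, Complex.exp_two_pi_mul_I, mul_one]
  have ht : cexp (2 * Real.pi * I * ((s + 1 : ℝ) : ℂ) * t) *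
      cexp (-(2 * Real.pi * I * ((s + 1 : ℝ) : ℂ) * (Int.fract t : ℝ))) =
      cexp (2 * Real.pi * I * s * t) * cexp (-(2 * Real.pi * I * s * (Int.fract t : ℝ))) := by
    have hfl : ((Int.fract t : ℝ) : ℂ) = t - (⌊t⌋ : ℤ) := by
      rw [Int.fract]
      push_cast
      ring
    have hint : cexp ((⌊t⌋ : ℤ) * (2 * Real.pi * I)) = 1 := Complex.exp_int_mul_two_pi_mul_I _
    rw [hfl, ← Complex.exp_add, ← Complex.exp_add]
    have e : 2 * Real.pi * I * ((s + 1 : ℝ) : ℂ) * t +
        -(2 * Real.pi * I * ((s + 1 : ℝ) : ℂ) * (t - (⌊t⌋ : ℤ))) =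
        (2 * Real.pi * I * s * t + -(2 * Real.pi * I * s * (t - (⌊t⌋ : ℤ)))) +
          (⌊t⌋ : ℤ) * (2 * Real.pi * I) := by
      push_cast
      ring
    rw [e, Complex.exp_add, hint, mul_one]
  unfold eta ff
  rw [hs]
  ext
  · simp only [Prod.smul_fst, smul_eq_mul]
    rw [← mul_assoc, ht, mul_assoc]
  · simp only [Prod.smul_snd, smul_eq_mul]
    rw [← mul_assoc, ht, mul_assoc]

/-- squared norm -/
noncomputable def NN (v : ℂ × ℂ) : ℝ := normSq v.1 + normSq v.2

/-- the Hopf map -/
noncomputable def HH (v : ℂ × ℂ) : EuclideanSpace ℝ (Fin 3) :=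
  WithLp.toLp 2 ![2 * (v.1.re * v.2.re + v.1.im * v.2.im) / NN v,
    2 * (v.1.re * v.2.im - v.1.im * v.2.re) / NN v, (normSq v.1 - normSq v.2) / NN v]

lemma NN_pos {v : ℂ × ℂ} (hv : v ≠ 0) : 0 < NN v := by
  unfold NN
  have h1 := normSq_nonneg v.1
  have h2 := normSq_nonneg v.2
  rcases h1.lt_or_eq with h | h
  · linarith
  rcases h2.lt_or_eq with h' | h'
  · linarith
  exfalso
  apply hv
  ext1
  · exact normSq_eq_zero.mp h.symm
  · exact normSq_eq_zero.mp h'.symm

lemma NN_eq (v : ℂ × ℂ) :
    NN v = v.1.re * v.1.re + v.1.im * v.1.im + (v.2.re * v.2.re + v.2.im * v.2.im) := by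
  unfold NN
  rw [normSq_apply, normSq_apply]

lemma norm_HH {v : ℂ × ℂ} (hv : v ≠ 0) : ‖HH v‖ = 1 := by
  have hN := (NN_pos hv).ne'
  have hn := NN_eq v
  rw [EuclideanSpace.norm_eq, Fin.sum_univ_three]
  rw [Real.sqrt_eq_one]
  simp only [HH, Matrix.cons_val_zero, Matrix.cons_val_one, Matrix.cons_val, Real.norm_eq_abs,
    sq_abs]
  rw [normSq_apply, normSq_apply]
  generalize NN v = n at hN hn
  field_simp
  rw [hn]
  ring

lemma inLine_HH {v : ℂ × ℂ} (hv : v ≠ 0) : InLine (HH v) v := by
  have hN := (NN_pos hv).ne'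
  have hn := NN_eq v
  unfold InLine HH
  simp only [Matrix.cons_val_zero, Matrix.cons_val_one, Matrix.cons_val]
  rw [normSq_apply, normSq_apply]
  generalize NN v = n at hN hn
  constructor
  · apply Complex.ext
    · simp only [mul_re, sub_re, sub_im, mul_im, ofReal_re, ofReal_im, I_re, I_im, one_re, one_im]
      field_simp
      rw [hn]
      ring
    · simp only [mul_re, sub_re, sub_im, mul_im, ofReal_re, ofReal_im, I_re, I_im, one_re, one_im]
      field_simp
      rw [hn]
      ring
  · apply Complex.ext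
    · simp only [mul_re, add_re, add_im, mul_im, ofReal_re, ofReal_im, I_re, I_im, one_re, one_im]
      field_simp
      rw [hn]
      ring
    · simp only [mul_re, add_re, add_im, mul_im, ofReal_re, ofReal_im, I_re, I_im, one_re, one_im]
      field_simp
      rw [hn]
      ring

lemma HH_smul {c : ℂ} (hc : normSq c = 1) (v : ℂ × ℂ) : HH (c • v) = HH v := by
  have hN : NN (c • v) = NN v := by
    unfold NN
    simp only [Prod.smul_fst, Prod.smul_snd, smul_eq_mul, normSq_mul, hc, one_mul]
  have hc' : c.re * c.re + c.im * c.im = 1 := by rw [← normSq_apply]; exact hc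
  unfold HH
  rw [hN]
  congr 1
  ext i
  fin_cases i
  · simp only [Prod.smul_fst, Prod.smul_snd, smul_eq_mul, mul_re, mul_im]
    have e : (c.re * v.1.re - c.im * v.1.im) * (c.re * v.2.re - c.im * v.2.im) +
        (c.re * v.1.im + c.im * v.1.re) * (c.re * v.2.im + c.im * v.2.re) =
        v.1.re * v.2.re + v.1.im * v.2.im := by
      linear_combination (v.1.re * v.2.re + v.1.im * v.2.im) * hc'
    simp only [e]
    rfl
  · simp only [Prod.smul_fst, Prod.smul_snd, smul_eq_mul, mul_re, mul_im]
    have e : (c.re * v.1.re - c.im * v.1.im) * (c.re * v.2.im + c.im * v.2.re) -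
        (c.re * v.1.im + c.im * v.1.re) * (c.re * v.2.re - c.im * v.2.im) =
        v.1.re * v.2.im - v.1.im * v.2.re := by
      linear_combination (v.1.re * v.2.im - v.1.im * v.2.re) * hc'
    simp only [e]
    rfl
  · simp only [Prod.smul_fst, Prod.smul_snd, smul_eq_mul, normSq_mul, hc, one_mul]
    rfl

/-- the map to the sphere -/
noncomputable def ee (s t : ℝ) : S2 :=
  ⟨HH (eta s t), mem_sphere_zero_iff_norm.mpr (norm_HH (eta_ne_zero s t))⟩

lemma continuous_ee : Continuous (fun p : ℝ × ℝ => ee p.1 p.2) := by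
  apply Continuous.subtype_mk
  have hη := continuous_eta
  have h1 : Continuous (fun p : ℝ × ℝ => (eta p.1 p.2).1) := continuous_fst.comp hη
  have h2 : Continuous (fun p : ℝ × ℝ => (eta p.1 p.2).2) := continuous_snd.comp hη
  have hN : Continuous (fun p : ℝ × ℝ => NN (eta p.1 p.2)) :=
    (continuous_normSq.comp h1).add (continuous_normSq.comp h2)
  have hN0 : ∀ p : ℝ × ℝ, NN (eta p.1 p.2) ≠ 0 := fun p => (NN_pos (eta_ne_zero p.1 p.2)).ne'
  have a1 := continuous_re.comp h1
  have a2 := continuous_im.comp h1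
  have b1 := continuous_re.comp h2
  have b2 := continuous_im.comp h2
  have n1 := continuous_normSq.comp h1
  have n2 := continuous_normSq.comp h2
  unfold HH
  apply (PiLp.continuous_toLp 2 _).comp
  apply continuous_pi
  intro i
  fin_cases i
  · exact (continuous_const.mul ((a1.mul b1).add (a2.mul b2))).div hN hN0
  · exact (continuous_const.mul ((a1.mul b2).sub (a2.mul b1))).div hN hN0
  · exact (n1.sub n2).div hN hN0

theorem taskEta : TaskEta := by
  refine ⟨ee, eta, continuous_ee, continuous_eta, ?_⟩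
  intro s t
  refine ⟨eta_ne_zero s t, inLine_HH (eta_ne_zero s t), ?_, ?_, eta_add_one_left s t,
    eta_add_one_right s t⟩
  · apply Subtype.ext
    show HH (eta (s + 1) t) = HH (eta s t)
    rw [eta_add_one_left]
  · apply Subtype.ext
    show HH (eta s (t + 1)) = HH (eta s t)
    rw [eta_add_one_right]
    apply HH_smul
    rw [normSq_eq_norm_sq]
    have : 2 * Real.pi * I * s = ((2 * Real.pi * s : ℝ) : ℂ) * I := by
      push_cast
      ring
    rw [this, norm_exp_ofReal_mul_I]
    norm_num

end Pool.Agent.H164R3.FS.Eta
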